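import Pool.Agent.Run7.h441.JM.Stm

/-!
# MP_e26d5c_nt, piece NSQ: the numbers `D k n` are not squares
-/

set_option autoImplicit false

namespace Run7.h212.JM

open Run7.h441.JM
open scoped NumberTheorySymbols

lemma sq_mul_of (x w : ℤ) (hx : x ≠ 0) (h : IsSquare (x ^ 2 * w)) : IsSquare w := by
  obtain ⟨z, hz⟩ := h
  have h1 : x ^ 2 ∣ z ^ 2 := ⟨w, by rw [hz]; ring⟩
  have h2 : x ∣ z := (Int.pow_dvd_pow_iff two_ne_zero).mp h1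
  obtain ⟨y, rfl⟩ := h2
  refine ⟨y, ?_⟩
  have : x ^ 2 * w = x ^ 2 * (y * y) := by rw [hz]; ring
  exact mul_left_cancel₀ (pow_ne_zero 2 hx) this

lemma not_sq_between (a M : ℤ) (ha : 0 ≤ a) (h1 : a ^ 2 < M) (h2 : M < (a + 1) ^ 2) :
    ¬ IsSquare M := by
  rintro ⟨z, rfl⟩
  have h0 := abs_mul_abs_self z
  have h00 := abs_nonneg z
  have h3 : a < |z| := by
    by_contra h
    push Not at h
    nlinarith
  have h4 : |z| < a + 1 := by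
    by_contra h
    push Not at h
    nlinarith
  omega

lemma not_sq_mod8 (M : ℤ) (h : M % 8 = 5) : ¬ IsSquare M := by
  rintro ⟨z, rfl⟩
  have h1 : z % 8 = 0 ∨ z % 8 = 1 ∨ z % 8 = 2 ∨ z % 8 = 3 ∨ z % 8 = 4 ∨ z % 8 = 5 ∨ z % 8 = 6 ∨
    z % 8 = 7 := by omega
  rcases h1 with h1 | h1 | h1 | h1 | h1 | h1 | h1 | h1 <;>
    · rw [Int.mul_emod, h1] at h
      norm_num at h

/-- odd squares are `1` modulo `8` -/
lemma odd_sq (p : ℤ) (hp : Odd p) : p ^ 2 % 8 = 1 := by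
  obtain ⟨t, rfl⟩ := hp
  have h1 : (2 * t + 1) ^ 2 = 4 * (t * (t + 1)) + 1 := by ring
  obtain ⟨u, hu⟩ := Int.even_mul_succ_self t
  rw [h1]
  omega

lemma sum_mod8 (p q : ℤ) (hp : Odd p) (hq : Odd q) : (p ^ 2 + 4 * q ^ 2) % 8 = 5 := by
  have h1 := odd_sq p hp
  have h2 := odd_sq q hq
  omega

/-! ### `k` odd -/

lemma case_odd (k : ℤ) (hk : Odd k) (n : ℕ) : ∃ p q : ℤ, Odd p ∧ Odd q ∧
    (((PQ k (n + 1)).1 = p ∧ (PQ k (n + 1)).2 = 2 * q) ∨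
      ((PQ k (n + 1)).1 = 2 * q ∧ (PQ k (n + 1)).2 = p)) := by
  induction n with
  | zero =>
    refine ⟨1, k, odd_one, hk, Or.inr ⟨?_, ?_⟩⟩
    · show k * (1 ^ 2 + 1 ^ 2) = 2 * k
      ring
    · show (1 : ℤ) * 1 = 1
      ring
  | succ n ih =>
    obtain ⟨p, q, hp, hq, h⟩ := ih
    have h1 : (PQ k (n + 1 + 1)).1 = k * ((PQ k (n + 1)).1 ^ 2 + (PQ k (n + 1)).2 ^ 2) := rfl
    have h2 : (PQ k (n + 1 + 1)).2 = (PQ k (n + 1)).1 * (PQ k (n + 1)).2 := rfl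
    refine ⟨k * (p ^ 2 + 4 * q ^ 2), p * q, ?_, hp.mul hq, Or.inl ?_⟩
    · refine hk.mul (Odd.add_even hp.pow ?_)
      exact ⟨2 * q ^ 2, by ring⟩
    · rcases h with ⟨ha, hb⟩ | ⟨ha, hb⟩
      · rw [h1, h2, ha, hb]
        constructor <;> ring
      · rw [h1, h2, ha, hb]
        constructor <;> ring

lemma nsq_odd (k : ℤ) (hk : Odd k) (n : ℕ) (hn : 1 ≤ n) : ¬ IsSquare (D k n) := by
  obtain ⟨m, rfl⟩ : ∃ m, n = m + 1 := ⟨n - 1, by omega⟩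
  obtain ⟨p, q, hp, hq, h⟩ := case_odd k hk m
  apply not_sq_mod8
  have h1 := sum_mod8 p q hp hq
  unfold D
  rcases h with ⟨ha, hb⟩ | ⟨ha, hb⟩
  · rw [ha, hb, ← h1]
    congr 1
    ring
  · rw [ha, hb, ← h1]
    congr 1
    ring

/-! ### `k ≡ 2 mod 4` -/

lemma inv_two (k : ℤ) (n : ℕ) : IsCoprime (PQ k n).2 (2 * k + 1) ∧
    (2 * k + 1) ∣ (PQ k n).1 ^ 2 - (PQ k n).2 ^ 2 := by
  induction n with
  | zero =>
    refine ⟨isCoprime_one_left, ?_⟩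
    show (2 * k + 1) ∣ (1 : ℤ) ^ 2 - 1 ^ 2
    simp
  | succ n ih =>
    obtain ⟨hc, t, ht⟩ := ih
    have h1 : (PQ k (n + 1)).1 = k * ((PQ k n).1 ^ 2 + (PQ k n).2 ^ 2) := rfl
    have h2 : (PQ k (n + 1)).2 = (PQ k n).1 * (PQ k n).2 := rfl
    have hP : (PQ k n).1 ^ 2 = (PQ k n).2 ^ 2 + (2 * k + 1) * t := by rw [← ht]; ring
    constructor
    · rw [h2]
      refine IsCoprime.mul_left ?_ hc
      have h3 : IsCoprime ((PQ k n).1 ^ 2) (2 * k + 1) := by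
        rw [hP]
        exact (IsCoprime.pow_left hc).add_mul_left_left t
      exact (IsCoprime.pow_left_iff (by norm_num)).mp h3
    · rw [h1, h2]
      refine ⟨(2 * k - 1) * (PQ k n).2 ^ 4 + 4 * k ^ 2 * (PQ k n).2 ^ 2 * t +
        k ^ 2 * (2 * k + 1) * t ^ 2 - (PQ k n).2 ^ 2 * t, ?_⟩
      have e : (k * ((PQ k n).1 ^ 2 + (PQ k n).2 ^ 2)) ^ 2 - ((PQ k n).1 * (PQ k n).2) ^ 2 =
        k ^ 2 * ((PQ k n).1 ^ 2 + (PQ k n).2 ^ 2) ^ 2 - (PQ k n).1 ^ 2 * (PQ k n).2 ^ 2 := by ring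
      rw [e, hP]
      ring

lemma nsq_two (k : ℤ) (hk : k % 4 = 2) (n : ℕ) : ¬ IsSquare (D k n) := by
  rintro ⟨z, hz⟩
  obtain ⟨hc, t, ht⟩ := inv_two k n
  set b : ℕ := (2 * k + 1).natAbs with hb
  have hbN : ((b : ℤ)) ∣ 2 * k + 1 := Int.natAbs_dvd.mpr dvd_rfl
  have hb8 : b % 8 = 3 ∨ b % 8 = 5 := by omega
  have hJ2 : J(2 | b) = -1 := by
    rw [jacobiSym.at_two (by rw [Nat.odd_iff]; omega), ZMod.χ₈_nat_eq_if_mod_eight]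
    rcases hb8 with h | h <;> simp [h] <;> omega
  have hJQ : J((PQ k n).2 | b) ^ 2 = 1 := by
    apply jacobiSym.sq_one
    rw [hb]
    have h1 := Int.isCoprime_iff_gcd_eq_one.mp hc
    rw [← h1, Int.gcd, Int.gcd, Int.natAbs_natCast]
  have h1 : J(z * z | b) = J(2 * (PQ k n).2 ^ 2 | b) := by
    rw [jacobiSym.mod_left, jacobiSym.mod_left (2 * (PQ k n).2 ^ 2)]
    congr 1
    rw [← hz]
    apply Int.ModEq.symm
    refine (Int.modEq_iff_dvd.mpr ?_)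
    refine hbN.trans ⟨t, ?_⟩
    rw [← ht]
    unfold D
    ring
  have h2 : J(z * z | b) = J(z | b) ^ 2 := by rw [jacobiSym.mul_left]; ring
  have h3 : J(2 * (PQ k n).2 ^ 2 | b) = -1 := by
    rw [jacobiSym.mul_left, jacobiSym.pow_left, hJ2, hJQ]
    norm_num
  have h4 : J(z | b) ^ 2 = -1 := by rw [← h2, h1, h3]
  have h5 := sq_nonneg (J(z | b))
  omega

/-! ### `k ≡ 0 mod 4` -/

/-- one of `P, Q` is `2^a` times an odd number, the other `2^(a+1)` times an odd number -/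
def FE (x : ℤ × ℤ) : Prop := ∃ (a : ℕ) (p q : ℤ), Odd p ∧ Odd q ∧
  ((x.1 = 2 ^ a * p ∧ x.2 = 2 ^ (a + 1) * q) ∨ (x.1 = 2 ^ (a + 1) * q ∧ x.2 = 2 ^ a * p))

/-- `P = 2^(a+c+1) p`, `Q = 2^a q` -/
def FO (c : ℕ) (x : ℤ × ℤ) : Prop := ∃ (a : ℕ) (p q : ℤ), Odd p ∧ Odd q ∧
  x.1 = 2 ^ (a + c + 1) * p ∧ x.2 = 2 ^ a * q

lemma odd_comb (p q : ℤ) (hp : Odd p) (m : ℕ) : Odd (p ^ 2 + 4 ^ (m + 1) * q ^ 2) := by
  refine Odd.add_even hp.pow ?_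
  rw [pow_succ]
  exact ⟨4 ^ m * 2 * q ^ 2, by ring⟩

lemma FE_sq (x : ℤ × ℤ) (h : FE x) : ¬ IsSquare (x.1 ^ 2 + x.2 ^ 2) := by
  obtain ⟨a, p, q, hp, hq, h⟩ := h
  have e : x.1 ^ 2 + x.2 ^ 2 = (2 ^ a) ^ 2 * (p ^ 2 + 4 * q ^ 2) := by
    rcases h with ⟨h1, h2⟩ | ⟨h1, h2⟩ <;> rw [h1, h2] <;> ring
  rw [e]
  intro h3
  exact not_sq_mod8 _ (sum_mod8 p q hp hq) (sq_mul_of _ _ (by positivity) h3)

/-- even to odd: `k = 2^(c+2) κ` -/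
lemma FE_FO (c : ℕ) (κ : ℤ) (hκ : Odd κ) (x : ℤ × ℤ) (h : FE x) :
    FO c (2 ^ (c + 2) * κ * (x.1 ^ 2 + x.2 ^ 2), x.1 * x.2) := by
  obtain ⟨a, p, q, hp, hq, h⟩ := h
  have ho := odd_comb p q hp 0
  refine ⟨2 * a + 1, κ * (p ^ 2 + 4 ^ (0 + 1) * q ^ 2), p * q, hκ.mul ho, hp.mul hq, ?_, ?_⟩
  · show 2 ^ (c + 2) * κ * (x.1 ^ 2 + x.2 ^ 2) = _
    rcases h with ⟨h1, h2⟩ | ⟨h1, h2⟩ <;> rw [h1, h2] <;> ring
  · show x.1 * x.2 = _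
    rcases h with ⟨h1, h2⟩ | ⟨h1, h2⟩ <;> rw [h1, h2] <;> ring

/-- odd to even -/
lemma FO_FE (c : ℕ) (κ : ℤ) (hκ : Odd κ) (x : ℤ × ℤ) (h : FO c x) :
    FE (2 ^ (c + 2) * κ * (x.1 ^ 2 + x.2 ^ 2), x.1 * x.2) := by
  obtain ⟨a, p, q, hp, hq, h1, h2⟩ := h
  have ho := odd_comb q p hq c
  refine ⟨2 * a + c + 1, p * q, κ * (q ^ 2 + 4 ^ (c + 1) * p ^ 2), hp.mul hq, hκ.mul ho,
    Or.inr ⟨?_, ?_⟩⟩
  · show 2 ^ (c + 2) * κ * (x.1 ^ 2 + x.2 ^ 2) = _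
    have h4 : (4 : ℤ) ^ (c + 1) = 2 ^ (c + 1) * 2 ^ (c + 1) := by
      rw [← mul_pow]; norm_num
    rw [h1, h2, h4]
    ring
  · show x.1 * x.2 = _
    rw [h1, h2]
    ring

lemma forms (c : ℕ) (κ : ℤ) (hκ : Odd κ) (m : ℕ) :
    FE (PQ (2 ^ (c + 2) * κ) (2 * m + 2)) ∧ FO c (PQ (2 ^ (c + 2) * κ) (2 * m + 3)) := by
  have step : ∀ n, PQ (2 ^ (c + 2) * κ) (n + 1) =
      (2 ^ (c + 2) * κ * ((PQ (2 ^ (c + 2) * κ) n).1 ^ 2 + (PQ (2 ^ (c + 2) * κ) n).2 ^ 2),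
        (PQ (2 ^ (c + 2) * κ) n).1 * (PQ (2 ^ (c + 2) * κ) n).2) := fun n => rfl
  induction m with
  | zero =>
    have h0 : FE (PQ (2 ^ (c + 2) * κ) 2) := by
      refine ⟨c + 2, κ * (κ ^ 2 * 2 ^ (2 * c + 6) + 1), κ, ?_, hκ, Or.inl ⟨?_, ?_⟩⟩
      · refine hκ.mul (Even.add_odd ?_ odd_one)
        exact ⟨κ ^ 2 * 2 ^ (2 * c + 5), by ring⟩
      · show 2 ^ (c + 2) * κ * ((2 ^ (c + 2) * κ * (1 ^ 2 + 1 ^ 2)) ^ 2 + (1 * 1) ^ 2) = _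
        ring
      · show 2 ^ (c + 2) * κ * (1 ^ 2 + 1 ^ 2) * (1 * 1) = _
        ring
    refine ⟨h0, ?_⟩
    show FO c (PQ (2 ^ (c + 2) * κ) (2 + 1))
    rw [step]
    exact FE_FO c κ hκ _ h0
  | succ m ih =>
    have h1 : FE (PQ (2 ^ (c + 2) * κ) (2 * m + 3 + 1)) := by
      rw [step]
      exact FO_FE c κ hκ _ ih.2
    refine ⟨h1, ?_⟩
    show FO c (PQ (2 ^ (c + 2) * κ) (2 * m + 3 + 1 + 1))
    rw [step]
    exact FE_FO c κ hκ _ h1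

lemma nsq_one (k : ℤ) (hk : k ≠ 0) : ¬ IsSquare (D k 1) := by
  have e : D k 1 = 4 * k ^ 2 + 1 := by
    show (k * (1 ^ 2 + 1 ^ 2)) ^ 2 + (1 * 1) ^ 2 = _
    ring
  have hk0 : 0 < |k| := abs_pos.mpr hk
  rw [e]
  refine not_sq_between (2 * |k|) _ (by positivity) ?_ ?_
  · have := sq_abs k
    nlinarith
  · have := sq_abs k
    nlinarith

lemma nsq_three (k : ℤ) (hk : k ≠ 0) (h2 : Even k) : ¬ IsSquare (D k 3) := by
  obtain ⟨κ, hκ⟩ := h2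
  have hκ0 : κ ≠ 0 := by rintro rfl; exact hk (by rw [hκ]; rfl)
  have e : D k 3 = (2 * k ^ 2) ^ 2 * (κ ^ 2 * ((4 * k ^ 2 + 1) ^ 2 + 4) ^ 2 +
      (4 * k ^ 2 + 1) ^ 2) := by
    show (k * ((k * ((k * (1 ^ 2 + 1 ^ 2)) ^ 2 + (1 * 1) ^ 2)) ^ 2 +
      (k * (1 ^ 2 + 1 ^ 2) * (1 * 1)) ^ 2)) ^ 2 +
      ((k * ((k * (1 ^ 2 + 1 ^ 2)) ^ 2 + (1 * 1) ^ 2)) * (k * (1 ^ 2 + 1 ^ 2) * (1 * 1))) ^ 2 = _
    rw [hκ]
    ring
  rw [e]
  intro h3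
  refine not_sq_between (|κ| * ((4 * k ^ 2 + 1) ^ 2 + 4)) _ (by positivity) ?_ ?_
    (sq_mul_of _ _ (by positivity) h3)
  · rw [mul_pow, sq_abs]
    have : 0 < (4 * k ^ 2 + 1) ^ 2 := by positivity
    linarith
  · have hκ1 : 1 ≤ |κ| := Int.one_le_abs hκ0
    have h5 : (|κ| * ((4 * k ^ 2 + 1) ^ 2 + 4) + 1) ^ 2 = κ ^ 2 * ((4 * k ^ 2 + 1) ^ 2 + 4) ^ 2 +
      2 * |κ| * ((4 * k ^ 2 + 1) ^ 2 + 4) + 1 := by
      have := sq_abs κ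
      calc (|κ| * ((4 * k ^ 2 + 1) ^ 2 + 4) + 1) ^ 2 = |κ| ^ 2 * ((4 * k ^ 2 + 1) ^ 2 + 4) ^ 2 +
          2 * |κ| * ((4 * k ^ 2 + 1) ^ 2 + 4) + 1 := by ring
        _ = _ := by rw [this]
    rw [h5]
    have h6 : 0 < (4 * k ^ 2 + 1) ^ 2 := by positivity
    nlinarith

theorem t_NSQ : S_NSQ := by
  intro k hk n hn h
  rcases Int.even_or_odd k with h2 | h2
  · by_cases h4 : k % 4 = 2
    · exact nsq_two k h4 n
    · -- `4 ∣ k`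
      have h4' : k % 4 = 0 := by
        obtain ⟨t, ht⟩ := h2
        omega
      obtain ⟨c, κ, hκ, hkc⟩ : ∃ (c : ℕ) (κ : ℤ), Odd κ ∧ k = 2 ^ (c + 2) * κ := by
        obtain ⟨c, κ, hκ, hkc⟩ : ∃ (c : ℕ) (κ : ℤ), Odd κ ∧ k = 2 ^ c * κ := by
          obtain ⟨c, m, hm, hkm⟩ := Nat.exists_eq_two_pow_mul_odd (Int.natAbs_ne_zero.mpr hk)
          have hm' : Odd (m : ℤ) := by exact_mod_cast hm
          rcases Int.natAbs_eq k with h | h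
          · exact ⟨c, m, hm', by rw [h, hkm]; push_cast; rfl⟩
          · exact ⟨c, -m, hm'.neg, by rw [h, hkm]; push_cast; ring⟩
        have hc : 2 ≤ c := by
          by_contra hc
          have : c = 0 ∨ c = 1 := by omega
          obtain ⟨u, hu⟩ := hκ
          rcases this with rfl | rfl
          · rw [pow_zero, one_mul] at hkc; omega
          · rw [pow_one] at hkc; omega
        exact ⟨c - 2, κ, hκ, by rw [Nat.sub_add_cancel hc]; exact hkc⟩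
      by_cases hn1 : n = 1
      · rw [hn1]; exact nsq_one k hk
      by_cases hn3 : n = 3
      · rw [hn3]; exact nsq_three k hk h2
      rcases Nat.even_or_odd n with hne | hno
      · obtain ⟨m, rfl⟩ : ∃ m, n = 2 * m + 2 := by
          obtain ⟨u, hu⟩ := hne
          exact ⟨u - 1, by omega⟩
        rw [hkc]
        exact FE_sq _ (forms c κ hκ m).1
      · have h8 : ¬ (8 : ℤ) ∣ k := by
          rcases h with h | h | h | h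
          · exact h
          · exact absurd h (Nat.not_even_iff_odd.mpr hno)
          · exact absurd h hn1
          · exact absurd h hn3
        obtain ⟨m, rfl⟩ : ∃ m, n = 2 * m + 3 := by
          obtain ⟨u, hu⟩ := hno
          exact ⟨u - 1, by omega⟩
        have hc0 : c = 0 := by
          by_contra hc
          apply h8
          rw [hkc]
          obtain ⟨c', rfl⟩ := Nat.exists_eq_succ_of_ne_zero hc
          exact ⟨2 ^ c' * κ, by rw [Nat.succ_eq_add_one]; ring⟩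
        subst hc0
        rw [hkc]
        apply FE_sq
        obtain ⟨a, p, q, hp, hq, ha, hb⟩ := (forms 0 κ hκ m).2
        exact ⟨a, q, p, hq, hp, Or.inr ⟨ha, hb⟩⟩
  · exact nsq_odd k h2 n hn

end Run7.h212.JM
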